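import Pool.Agent.U72.TD.Color

set_option autoImplicit false

/-!
Turing determinacy implies that every invariant of sequences of vectors modulo null sequences, with
values in the Cantor space, is constant on a translate of every countable group of vectors; hence
every map from the colourings of the natural numbers by an abelian group, modulo density zero, to
the Cantor space or to a linear order is constant on an orbit of every finitely generated subgroup,
respectively on an orbit of its torsion part. Stated as an explicit reduction to the determinacy of
Turing invariant sets.
-/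

namespace Pool.Agent.Results.MP_917879_lc.AbelianOrbits

open Pool.Agent.H685R3 Pool.Agent.TH774.TD Pool.Agent.U72.TD Filter Topology

universe u v

/-- `x` and `y` have the same Turing degree (Mathlib's Turing reducibility, for characteristic
functions). -/
def SameDegree (x y : ℕ → Bool) : Prop :=
  TuringReducible (charFn x) (charFn y) ∧ TuringReducible (charFn y) (charFn x)

/-- There is a Borel map `ρ` from the Cantor space to real sequences, sending Turing equivalent
reals to sequences with difference tending to zero, such that the following holds.

(1) Let `Ψ` be a map from the sequences of vectors of `Fin d → ℝ` to the Cantor space which does not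
change under null perturbations. Then the sets `{x | iter ρ Ψ i (upd t i (ρ x)) j = true}` are
Turing invariant, and if all of them are determined, then there is a `c` such that for every
countable family `r` of vectors there is a sequence `s` of vectors, with all coordinates tending to
infinity, such that `Ψ (s + r l) = c` for all `l`.

(2) Let `F` be a map from the colourings of the natural numbers by elements of an abelian group to
the Cantor space which does not change when the colouring is changed on a set of density zero. Let
`g` be a finite family of elements of the group. If the sets of (1) for the composition of `F` with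
the rotating colouring are determined, then there is a colouring `χ` such that `F (γ + χ) = F χ` for
all `γ` in the subgroup generated by `g`.

(3) Let `F` be such a map with values in a linear order. If the sets of (1) for the pattern of
comparisons of `F` are determined, then there is a colouring `χ` such that `F (γ + χ) = F χ` for all
elements `γ` of finite order in the subgroup generated by `g`. -/
theorem result :
    ∃ ρ : (ℕ → Bool) → ℕ → ℝ, Measurable ρ ∧
      (∀ x y, SameDegree x y → Tendsto (fun n => ρ x n - ρ y n) atTop (𝓝 0)) ∧
      (∀ (d : ℕ) (Ψ : (ℕ → Fin d → ℝ) → ℕ → Bool), NullInv Ψ →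
        (∀ (i : Fin d) (t : ℕ → Fin d → ℝ) (j : ℕ),
          TuringInvariant {x | iter ρ Ψ i (upd t i (ρ x)) j = true}) ∧
        ((∀ (i : Fin d) (t : ℕ → Fin d → ℝ) (j : ℕ),
          Determined {x | iter ρ Ψ i (upd t i (ρ x)) j = true}) →
          ∃ c : ℕ → Bool, ∀ r : ℕ → Fin d → ℝ, ∃ s : ℕ → Fin d → ℝ,
            (∀ i, Tendsto (fun n => s n i) atTop atTop) ∧ ∀ l, Ψ (fun n => s n + r l) = c)) ∧
      (∀ (d : ℕ) (Γ : Type u) [AddCommGroup Γ] (g : Fin d → Γ) (F : (ℕ → Γ) → ℕ → Bool),
        ModDensity F → NullInv (fun t => F (col g t)) ∧
        ((∀ (i : Fin d) (t : ℕ → Fin d → ℝ) (j : ℕ),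
          Determined {x | iter ρ (fun t => F (col g t)) i (upd t i (ρ x)) j = true}) →
          ∃ χ : ℕ → Γ, ∀ γ ∈ AddSubgroup.closure (Set.range g), F (fun m => γ + χ m) = F χ)) ∧
      (∀ (d : ℕ) (Γ : Type u) [AddCommGroup Γ] (g : Fin d → Γ) (Y : Type v) [LinearOrder Y]
        (F : (ℕ → Γ) → Y), ModDensity F → NullInv (pattern g F) ∧
        ((∀ (i : Fin d) (t : ℕ → Fin d → ℝ) (j : ℕ),
          Determined {x | iter ρ (pattern g F) i (upd t i (ρ x)) j = true}) →
          ∃ χ : ℕ → Γ, ∀ γ ∈ AddSubgroup.closure (Set.range g), IsOfFinAddOrder γ →
            F (fun m => γ + χ m) = F χ)) := by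
  refine ⟨sq, measurable_pi_lambda _ measurable_sq, fun x y h => sq_close h.1 h.2, ?_, ?_, ?_⟩
  · intro d Ψ hΨ
    exact ⟨iter_invariant hΨ, torus hΨ⟩
  · intro d Γ _ g F hF
    exact ⟨fun s t h => hF _ _ (col_close g h), color_cantor g hF⟩
  · intro d Γ _ g Y _ F hF
    exact ⟨pattern_null g hF, color_linear g hF⟩

end Pool.Agent.Results.MP_917879_lc.AbelianOrbits
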