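import Pool.Agent.U72.TD.Pair

set_option autoImplicit false

/-!
Turing determinacy implies that a subgroup of a product of groups with bi-invariant lengths, which
contains the null sequences and whose coset space has a choice function for pairs, contains every
sequence at the end of an asymptotically equicontinuous path, for instance every sequence of
permutations. Stated as an explicit reduction to the determinacy of a Turing invariant set.
-/

namespace Pool.Agent.Results.MP_917879_lc.PairChoicePaths

open Pool.Agent.H685R3 Pool.Agent.TH774.TD Pool.Agent.U72.TD Filter Topology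

universe u

/-- `x` and `y` have the same Turing degree (Mathlib's Turing reducibility, for characteristic
functions). -/
def SameDegree (x y : ℕ → Bool) : Prop :=
  TuringReducible (charFn x) (charFn y) ∧ TuringReducible (charFn y) (charFn x)

/-- There is a Borel map `ρ` from the Cantor space to real sequences, sending Turing equivalent
reals to sequences with difference tending to zero, such that the following holds.

(1) Let `G n` be groups with bi-invariant length functions `ℓ n`, let `B` be a subgroup of their
product, let `K` be a subgroup which contains all null sequences of `B`, and let `R` choose one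
element from every pair of different left cosets of `K` in `B`. Let `p n` be paths in `G n`,
starting at the identity, asymptotically equicontinuous, with all selections from them in `B`. Then
the set `{x | R (loop₂ p (ρ x)) (loop₂ p (ρ x - 1 / 2))}`, where `loop₂ p n s` is
`(p n (lo s))⁻¹ * p n (up s)`, is Turing invariant, and if it is determined, then `fun n => p n 1`
is in `K`.

(2) For symmetric groups of growing degrees with the normalized Hamming length, every sequence is
the end of such a path. -/
theorem result :
    ∃ ρ : (ℕ → Bool) → ℕ → ℝ, Measurable ρ ∧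
      (∀ x y, SameDegree x y → Tendsto (fun n => ρ x n - ρ y n) atTop (𝓝 0)) ∧
      (∀ (G : ℕ → Type u) [∀ n, Group (G n)] (ℓ : ∀ n, G n → ℝ) (p : ∀ n, ℝ → G n)
        (B K : Subgroup (∀ n, G n)) (R : (∀ n, G n) → (∀ n, G n) → Prop),
        (∀ n, IsLength (ℓ n)) → IsPath ℓ p →
        (∀ t : ℕ → ℝ, (∀ n, t n ∈ Set.Icc (0 : ℝ) 1) → (fun n => p n (t n)) ∈ B) →
        (∀ a ∈ B, Null ℓ a → a ∈ K) → ChoosesFromPairs B K R →
        TuringInvariant {x | R (fun n => loop₂ p n (ρ x n)) (fun n => loop₂ p n (ρ x n - 1 / 2))} ∧
        (Determined {x | R (fun n => loop₂ p n (ρ x n)) (fun n => loop₂ p n (ρ x n - 1 / 2))} →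
          (fun n => p n 1) ∈ K)) ∧
      (∀ k : ℕ → ℕ, Tendsto k atTop atTop → ∀ g : ∀ n, Equiv.Perm (Fin (k n)),
        (∀ n, IsLength (hammingLength (k n))) ∧
        ∃ p : ∀ n, ℝ → Equiv.Perm (Fin (k n)), IsPath (fun n => hammingLength (k n)) p ∧
          ∀ n, p n 1 = g n) := by
  refine ⟨sq, measurable_pi_lambda _ measurable_sq, fun x y h => sq_close h.1 h.2, ?_, ?_⟩
  · intro G _ ℓ p B K R hl hp hB hK hR
    exact ⟨fun x y h1 h2 hx => pair_invariant hl hp hB hK hR (sq_close h1 h2) hx,
      pair_mem hl hp hB hK hR⟩
  · intro k hk g
    obtain ⟨l, h1, h2⟩ := exists_path_perm hk g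
    exact ⟨fun n => isLength_hamming (k n), _, h1, h2⟩

end Pool.Agent.Results.MP_917879_lc.PairChoicePaths
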