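import Pool.Agent.U72.TD.Coset

set_option autoImplicit false

/-!
Turing determinacy implies that no nontrivial coset space of a product of groups modulo density zero
has a function which selects a nonempty proper subset of each of its subsets with exactly `q`
elements (`q ≥ 2` fixed), and the same for finitely additive group valued maps vanishing on the sets
of density zero. Stated as an explicit reduction to the determinacy of Turing invariant sets.
-/

namespace Pool.Agent.Results.MP_917879_lc.SelectorsModDensity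

open Pool.Agent.H685R3 Pool.Agent.TH774.TD Pool.Agent.U72.TD Filter Topology

universe u

/-- `x` and `y` have the same Turing degree (Mathlib's Turing reducibility, for characteristic
functions). -/
def SameDegree (x y : ℕ → Bool) : Prop :=
  TuringReducible (charFn x) (charFn y) ∧ TuringReducible (charFn y) (charFn x)

/-- The element `g` of the product, restricted to the set `A` of indices. -/
noncomputable def restr {H : ℕ → Type u} [∀ m, Group (H m)] (g : ∀ m, H m) (A : Set ℕ) :
    ∀ m, H m := by
  classical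
  exact fun m => if m ∈ A then g m else 1

theorem restr_union {H : ℕ → Type u} [∀ m, Group (H m)] (g : ∀ m, H m) (S T : Set ℕ)
    (h : Disjoint S T) : restr g (S ∪ T) = restr g S * restr g T := by
  funext m
  rw [Pi.mul_apply]
  unfold restr
  by_cases h1 : m ∈ S
  · rw [if_pos (Set.mem_union_left T h1), if_pos h1, if_neg (Set.disjoint_left.1 h h1), mul_one]
  · by_cases h2 : m ∈ T
    · rw [if_pos (Set.mem_union_right S h2), if_neg h1, if_pos h2, one_mul]
    · rw [if_neg (fun h3 => h3.elim h1 h2), if_neg h1, if_neg h2, mul_one]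

/-- There is a Borel map `ρ` from the Cantor space to real sequences, sending Turing equivalent
reals to sequences with difference tending to zero, such that the following holds.

(1) Let `μ` be a finitely additive map from the sets of natural numbers to a group `X`, let `K` be a
subgroup which contains the values of `μ` on the sets of density zero, let `q ≥ 2` and let `sel` be
a function which selects a nonempty proper subset of every set of exactly `q` left cosets of `K`.
Then for every set `S` the `2 q` sets of reals `{x | j ∈ sel fun i => μ (S ∩ A_i x) K}` and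
`{x | μ (S ∩ A_0 x) K = μ (S ∩ A_j x) K}`, where `A_i x` is the arc of width `1 / q` at the time
`ρ x - i / q`, are Turing invariant, and if all of them are determined, then `μ S` is in `K`.

(2) The special case of `μ A = restr g A` for an element `g` of a product of arbitrary groups.

(3) For every linear order, taking the smallest element is such a function. -/
theorem result :
    ∃ ρ : (ℕ → Bool) → ℕ → ℝ, Measurable ρ ∧
      (∀ x y, SameDegree x y → Tendsto (fun n => ρ x n - ρ y n) atTop (𝓝 0)) ∧
      (∀ (X : Type u) [Group X] (μ : Set ℕ → X) (K : Subgroup X) (q : ℕ)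
        (sel : (Fin q → X ⧸ K) → Set (Fin q)),
        (∀ S T, Disjoint S T → μ (S ∪ T) = μ S * μ T) → (∀ S, DensityZero S → μ S ∈ K) →
        2 ≤ q → IsSelector q sel → ∀ S,
        (∀ j : Fin q, TuringInvariant {x | j ∈ sel fun i : Fin q =>
          ((μ (S ∩ arcw (1 / q) fun n => ρ x n - (i : ℝ) / q) : X) : X ⧸ K)}) ∧
        (∀ j : Fin q, TuringInvariant {x | ((μ (S ∩ arcw (1 / q) (ρ x)) : X) : X ⧸ K) =
          ((μ (S ∩ arcw (1 / q) fun n => ρ x n - (j : ℝ) / q) : X) : X ⧸ K)}) ∧
        ((∀ j : Fin q, Determined {x | j ∈ sel fun i : Fin q =>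
          ((μ (S ∩ arcw (1 / q) fun n => ρ x n - (i : ℝ) / q) : X) : X ⧸ K)}) →
        (∀ j : Fin q, Determined {x | ((μ (S ∩ arcw (1 / q) (ρ x)) : X) : X ⧸ K) =
          ((μ (S ∩ arcw (1 / q) fun n => ρ x n - (j : ℝ) / q) : X) : X ⧸ K)}) → μ S ∈ K)) ∧
      (∀ (H : ℕ → Type u) [∀ m, Group (H m)] (K : Subgroup (∀ m, H m)) (q : ℕ)
        (sel : (Fin q → (∀ m, H m) ⧸ K) → Set (Fin q)),
        (∀ a : ∀ m, H m, DensityZero {m | a m ≠ 1} → a ∈ K) → 2 ≤ q → IsSelector q sel →
        ∀ g : ∀ m, H m,
        (∀ j : Fin q, TuringInvariant {x | j ∈ sel fun i : Fin q =>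
          (restr g (arcw (1 / q) fun n => ρ x n - (i : ℝ) / q) : (∀ m, H m) ⧸ K)}) ∧
        (∀ j : Fin q, TuringInvariant {x | (restr g (arcw (1 / q) (ρ x)) : (∀ m, H m) ⧸ K) =
          (restr g (arcw (1 / q) fun n => ρ x n - (j : ℝ) / q) : (∀ m, H m) ⧸ K)}) ∧
        ((∀ j : Fin q, Determined {x | j ∈ sel fun i : Fin q =>
          (restr g (arcw (1 / q) fun n => ρ x n - (i : ℝ) / q) : (∀ m, H m) ⧸ K)}) →
        (∀ j : Fin q, Determined {x | (restr g (arcw (1 / q) (ρ x)) : (∀ m, H m) ⧸ K) =
          (restr g (arcw (1 / q) fun n => ρ x n - (j : ℝ) / q) : (∀ m, H m) ⧸ K)}) → g ∈ K)) ∧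
      (∀ (Y : Type u) [LinearOrder Y] (q : ℕ), 2 ≤ q →
        IsSelector (Y := Y) q fun a => {i | ∀ j, a i ≤ a j}) := by
  have main : ∀ (X : Type u) [Group X] (μ : Set ℕ → X) (K : Subgroup X) (q : ℕ)
      (sel : (Fin q → X ⧸ K) → Set (Fin q)),
      (∀ S T, Disjoint S T → μ (S ∪ T) = μ S * μ T) → (∀ S, DensityZero S → μ S ∈ K) →
      2 ≤ q → IsSelector q sel → ∀ S,
      (∀ j : Fin q, TuringInvariant {x | j ∈ sel fun i : Fin q =>
        ((μ (S ∩ arcw (1 / q) fun n => sq x n - (i : ℝ) / q) : X) : X ⧸ K)}) ∧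
      (∀ j : Fin q, TuringInvariant {x | ((μ (S ∩ arcw (1 / q) (sq x)) : X) : X ⧸ K) =
        ((μ (S ∩ arcw (1 / q) fun n => sq x n - (j : ℝ) / q) : X) : X ⧸ K)}) ∧
      ((∀ j : Fin q, Determined {x | j ∈ sel fun i : Fin q =>
        ((μ (S ∩ arcw (1 / q) fun n => sq x n - (i : ℝ) / q) : X) : X ⧸ K)}) →
      (∀ j : Fin q, Determined {x | ((μ (S ∩ arcw (1 / q) (sq x)) : X) : X ⧸ K) =
        ((μ (S ∩ arcw (1 / q) fun n => sq x n - (j : ℝ) / q) : X) : X ⧸ K)}) → μ S ∈ K) := by
    intro X _ μ K q sel hadd hK hq hsel S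
    set μ' : Set ℕ → X := fun A => μ (S ∩ A) with hμ'
    have hadd' : ∀ P R, Disjoint P R → μ' (P ∪ R) = μ' P * μ' R := by
      intro P R h
      change μ (S ∩ (P ∪ R)) = μ (S ∩ P) * μ (S ∩ R)
      rw [Set.inter_union_distrib_left,
        hadd _ _ (h.mono Set.inter_subset_right Set.inter_subset_right)]
    have hK' : ∀ P, DensityZero P → μ' P ∈ K := fun P h => hK _ (h.mono Set.inter_subset_right)
    have hcl : ∀ (w : ℝ) (x y : ℕ → Bool) (c : ℝ), TuringReducible (charFn x) (charFn y) →
        TuringReducible (charFn y) (charFn x) →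
        ((μ' (arcw w fun n => sq x n - c) : X) : X ⧸ K) =
        ((μ' (arcw w fun n => sq y n - c) : X) : X ⧸ K) := by
      intro w x y c h1 h2
      exact coset_close μ' hadd' K hK' (arcw_close ((sq_close h1 h2).congr fun n => by ring))
    refine ⟨fun j x y h1 h2 hx => ?_, fun j x y h1 h2 hx => ?_, fun hS hR => ?_⟩
    · change j ∈ sel _ at hx
      change j ∈ sel _
      have e : (fun i : Fin q => ((μ' (arcw (1 / q) fun n => sq x n - (i : ℝ) / q) : X) : X ⧸ K)) =
          fun i : Fin q => ((μ' (arcw (1 / q) fun n => sq y n - (i : ℝ) / q) : X) : X ⧸ K) :=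
        funext fun i => hcl _ x y _ h1 h2
      change j ∈ sel (fun i : Fin q =>
        ((μ' (arcw (1 / q) fun n => sq y n - (i : ℝ) / q) : X) : X ⧸ K))
      rw [← e]
      exact hx
    · change ((μ' (arcw (1 / q) (sq x)) : X) : X ⧸ K) =
        ((μ' (arcw (1 / q) fun n => sq x n - (j : ℝ) / q) : X) : X ⧸ K) at hx
      change ((μ' (arcw (1 / q) (sq y)) : X) : X ⧸ K) =
        ((μ' (arcw (1 / q) fun n => sq y n - (j : ℝ) / q) : X) : X ⧸ K)
      have e := hcl (1 / q) x y 0 h1 h2
      simp only [sub_zero] at e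
      rw [← hcl _ x y _ h1 h2, ← hx]
      exact e.symm
    · have h1 := selector_coset μ' hadd' K hK' hq sel hsel hS hR
      change μ (S ∩ Set.univ) ∈ K at h1
      rwa [Set.inter_univ] at h1
  refine ⟨sq, measurable_pi_lambda _ measurable_sq, fun x y h => sq_close h.1 h.2, main, ?_, ?_⟩
  · intro H _ K q sel hK hq hsel g
    have h1 := main (∀ m, H m) (restr g) K q sel (restr_union g) (fun S hS => hK _ (hS.mono ?_))
      hq hsel Set.univ
    · simp only [Set.univ_inter] at h1
      refine ⟨h1.1, h1.2.1, fun h2 h3 => ?_⟩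
      have h4 := h1.2.2 h2 h3
      have e : restr g Set.univ = g := by
        funext m
        unfold restr
        rw [if_pos (Set.mem_univ m)]
      rwa [e] at h4
    · intro m hm
      by_contra h2
      refine hm ?_
      unfold restr
      rw [if_neg h2]
  · intro Y _ q hq
    refine ⟨fun a _ => ?_, fun a ha h => ?_, fun a _ π => ?_⟩
    · have : Nonempty (Fin q) := ⟨⟨0, by omega⟩⟩
      obtain ⟨i, hi⟩ := Finite.exists_min a
      exact ⟨i, hi⟩
    · have h1 : (⟨0, by omega⟩ : Fin q) ∈ {i | ∀ j, a i ≤ a j} := by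
        rw [h]
        trivial
      have h2 : (⟨1, by omega⟩ : Fin q) ∈ {i | ∀ j, a i ≤ a j} := by
        rw [h]
        trivial
      have h3 := ha (le_antisymm (h1 ⟨1, by omega⟩) (h2 ⟨0, by omega⟩))
      rw [Fin.mk.injEq] at h3
      omega
    · ext i
      change (∀ j, a (π i) ≤ a (π j)) ↔ ∀ j, a (π i) ≤ a j
      exact ⟨fun h j => by simpa using h (π.symm j), fun h j => h (π j)⟩

end Pool.Agent.Results.MP_917879_lc.SelectorsModDensity
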